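import Pool.Agent.Helper29.LDV.All
import Pool.Agent.Helper29.LDV.Main3

set_option autoImplicit false

namespace Pool.Agent.Results.MP_3188d7_nt.LargeDivisors

open Pool.Agent.Helper51.Pell

/-- Let `κ ≥ 0` and let `r` be `1` or `3`, with `r ∣ 2κ+1`.  There are infinitely many squarefree `m` that divide a
squarefree `d` with `d ^ ((r+1)/2) ≤ (64 m) ^ (κ(r+1)+1)` such that `m ^ κ` divides the coefficient `u(d)` of the
fundamental unit of `ℚ(√d)`. -/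
theorem result (κ r : ℕ) (hr : r = 1 ∨ r = 3) (hd : r ∣ 2 * κ + 1) (B : ℕ) :
    ∃ m d : ℕ, B < m ∧ Squarefree d ∧ (∃ p : ℕ, p.Prime ∧ p % 2 = 1 ∧ p ∣ d) ∧ m ∣ d ∧
      d ^ ((r + 1) / 2) ≤ (64 * m) ^ (κ * (r + 1) + 1) ∧
      ∃ t u : ℤ, IsFundamental d t u ∧ ((m : ℤ) ^ κ) ∣ u := by
  rcases hr with rfl | rfl
  · obtain ⟨m, d, h1, h2, h3, -, h5, h6⟩ := Pool.Agent.Helper29.LDV.partB κ (B + 2)
    obtain ⟨p, hp, hp2, hpm⟩ :=
      Pool.Agent.Helper29.LDV.odd_prime_dvd (Squarefree.squarefree_of_dvd h3 h2) (by omega)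
    refine ⟨m, d, by omega, h2, ⟨p, hp, hp2, hpm.trans h3⟩, h3, ?_, h6⟩
    rw [show (1 + 1) / 2 = 1 by norm_num, pow_one, show κ * (1 + 1) + 1 = 2 * κ + 1 by ring]
    exact h5
  · obtain ⟨μ, rfl⟩ : ∃ μ, κ = 3 * μ + 1 := ⟨(κ - 1) / 3, by omega⟩
    obtain ⟨m, d, h1, h2, h3, -, h5, h6⟩ := Pool.Agent.Helper29.LDV.partC μ (B + 2)
    obtain ⟨p, hp, hp2, hpm⟩ :=
      Pool.Agent.Helper29.LDV.odd_prime_dvd (Squarefree.squarefree_of_dvd h3 h2) (by omega)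
    refine ⟨m, d, by omega, h2, ⟨p, hp, hp2, hpm.trans h3⟩, h3, ?_, h6⟩
    rw [show (3 + 1) / 2 = 2 by norm_num, show (3 * μ + 1) * (3 + 1) + 1 = 12 * μ + 5 by ring]
    exact h5

end Pool.Agent.Results.MP_3188d7_nt.LargeDivisors
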