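import Pool.Agent.DUC.Main

/-!
# The unit coefficient is not divisible by `d` for a positive proportion of `d`

`u(d)` is the second coordinate of the fundamental unit of `ℚ(√d)`, `d` squarefree.

For the squarefree `d ≤ N` divisible by `3`: the proportion of those with `3 ∤ u(d)` is at least `1/2 - ε`, and the
proportion of those with `9 ∤ u(d)` is at least `2/3 - ε`, for all large `N`.  Hence, among ALL squarefree `d ≤ N`, the
proportion of those with `d ∤ u(d)` is at least `1/8 - ε`, and the proportion of those for which no power `d ^ κ`,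
`κ ≥ 2`, divides `u(d)` is at least `1/6 - ε`.

Proof: if `3 ∣ u(3 m)`, the cube root of the fundamental unit gives an irreducible integral binary cubic form of
discriminant `-m` or `-4 m`; reduced forms are counted as lattice points, with a sieve at the squares of primes.
-/

set_option autoImplicit false

namespace Pool.Agent.Results.MP_3188d7_nt.PositiveProportion

open Pool.Agent.Helper51.Pell Pool.Agent.DUC

theorem result (ε : ℝ) (hε : 0 < ε) : ∀ᶠ N : ℕ in Filter.atTop,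
    (1 / 2 - ε) * ({d : ℕ | d ≤ N ∧ Squarefree d ∧ 3 ∣ d}.ncard : ℝ) ≤
      ({d : ℕ | (d ≤ N ∧ Squarefree d ∧ 3 ∣ d) ∧
        ∃ t u : ℤ, IsFundamental d t u ∧ ¬ (3 : ℤ) ∣ u}.ncard : ℝ) ∧
    (2 / 3 - ε) * ({d : ℕ | d ≤ N ∧ Squarefree d ∧ 3 ∣ d}.ncard : ℝ) ≤
      ({d : ℕ | (d ≤ N ∧ Squarefree d ∧ 3 ∣ d) ∧
        ∃ t u : ℤ, IsFundamental d t u ∧ ¬ (9 : ℤ) ∣ u}.ncard : ℝ) ∧
    (1 / 8 - ε) * ({d : ℕ | d ≤ N ∧ Squarefree d}.ncard : ℝ) ≤
      ({d : ℕ | (d ≤ N ∧ Squarefree d ∧ 3 ∣ d) ∧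
        ∃ t u : ℤ, IsFundamental d t u ∧ ¬ (d : ℤ) ∣ u}.ncard : ℝ) ∧
    (1 / 6 - ε) * ({d : ℕ | d ≤ N ∧ Squarefree d}.ncard : ℝ) ≤
      ({d : ℕ | (d ≤ N ∧ Squarefree d ∧ 3 ∣ d) ∧
        ∃ t u : ℤ, IsFundamental d t u ∧ ∀ κ : ℕ, 2 ≤ κ → ¬ (d : ℤ) ^ κ ∣ u}.ncard : ℝ) :=
  main ε hε

end Pool.Agent.Results.MP_3188d7_nt.PositiveProportion
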