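import Pool.Agent.Helper29.LDV.All

set_option autoImplicit false

namespace Pool.Agent.Results.MP_3188d7_nt.UniformSize

open Pool.Agent.Helper51.Pell

/-- For every `κ ≥ 0` there is `C` such that every squarefree `m ≥ 1` divides a squarefree `d ≤ C m ^ (2κ+2)`, with an
odd prime divisor, such that `m ^ κ` divides the coefficient `u(d)` of the fundamental unit of `ℚ(√d)`. -/
theorem result (κ : ℕ) :
    ∃ C : ℕ, ∀ m : ℕ, Squarefree m →
      ∃ d : ℕ, Squarefree d ∧ (∃ p : ℕ, p.Prime ∧ p % 2 = 1 ∧ p ∣ d) ∧ m ∣ d ∧ d ≤ C * m ^ (2 * κ + 2) ∧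
        ∃ t u : ℤ, IsFundamental d t u ∧ ((m : ℤ) ^ κ) ∣ u :=
  Pool.Agent.Helper29.LDV.partAll κ

end Pool.Agent.Results.MP_3188d7_nt.UniformSize
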